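import Pool.Agent.H11.DL.EX

/-!
# Dilated zeros: module BA, the average over the bad heights
-/

set_option autoImplicit false

open Complex MeasureTheory Set Filter Topology

namespace Pool.Agent.H11.DL

open Pool.Agent.H25.DL

/-- the moment over a translate of a subset of `[T, 2T]` -/
theorem lintegral_moment_le (F : ℝ → ℝ) (hF : Continuous F) (hF0 : ∀ t, 0 ≤ F t) {T y : ℝ}
    (hT : 0 < T) (hy : |y| ≤ T) (E : Set ℝ) (hE : E ⊆ Icc T (2 * T)) :
    ∫⁻ u in E, ENNReal.ofReal (F (u + y)) ≤ ENNReal.ofReal (∫ t in (0 : ℝ)..(4 * T), F t) := by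
  have hy' := abs_le.1 hy
  have h1 : E ⊆ (fun x : ℝ => x + y) ⁻¹' Icc 0 (4 * T) := by
    intro u hu
    have := hE hu
    exact ⟨by linarith [this.1, hy'.1], by linarith [this.2, hy'.2]⟩
  have h2 := (measurePreserving_add_right (volume : Measure ℝ) y).setLIntegral_comp_preimage
    (s := Icc 0 (4 * T)) measurableSet_Icc (f := fun t => ENNReal.ofReal (F t))
    (ENNReal.measurable_ofReal.comp hF.measurable)
  calc ∫⁻ u in E, ENNReal.ofReal (F (u + y))
      ≤ ∫⁻ u in (fun x : ℝ => x + y) ⁻¹' Icc 0 (4 * T), ENNReal.ofReal (F (u + y)) :=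
        lintegral_mono_set h1
    _ = ∫⁻ t in Icc 0 (4 * T), ENNReal.ofReal (F t) := h2
    _ = ENNReal.ofReal (∫ t in Icc 0 (4 * T), F t) := by
        rw [ofReal_integral_eq_lintegral_ofReal (hF.integrableOn_Icc)
          (Eventually.of_forall fun t => hF0 t)]
    _ = _ := by
        rw [intervalIntegral.integral_of_le (by positivity), integral_Icc_eq_integral_Ioc]

/-- Hölder for a product -/
theorem hoelder {ι : Type} [Fintype ι] (G : ι → ℝ → ℝ) (hG : ∀ l, Continuous (G l))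
    (hG0 : ∀ l t, 0 ≤ G l t) (k : ι → ℕ) (hk : ∀ l, 1 ≤ k l) {T y Q : ℝ} (hT : 0 < T)
    (hQ : 0 < Q) (hy : |y| ≤ T) (E : Set ℝ) (hE : E ⊆ Icc T (2 * T))
    (hθ : ∑ l, 1 / (2 * (k l : ℝ)) ≤ 1)
    (hmom : ∀ l, ∫ t in (0 : ℝ)..(4 * T), G l t ^ (2 * k l) ≤ Q) :
    ∫⁻ u in E, ENNReal.ofReal (∏ l, G l (u + y)) ≤
      ENNReal.ofReal (volume.real E ^ (1 - ∑ l, 1 / (2 * (k l : ℝ))) *
        Q ^ (∑ l, 1 / (2 * (k l : ℝ)))) := by
  set θ := ∑ l, 1 / (2 * (k l : ℝ)) with hθdef
  have hEfin : volume E ≠ ⊤ := by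
    refine ne_top_of_le_ne_top ?_ (measure_mono hE)
    rw [Real.volume_Icc]
    exact ENNReal.ofReal_ne_top
  have h1 := ENNReal.lintegral_mul_prod_norm_pow_le (μ := volume.restrict E) (Finset.univ : Finset ι)
    (g := fun _ => 1) (f := fun l u => ENNReal.ofReal (G l (u + y) ^ (2 * k l)))
    measurable_const.aemeasurable
    (fun l _ => (ENNReal.measurable_ofReal.comp
      (((hG l).comp (continuous_id.add continuous_const)).pow (2 * k l)).measurable).aemeasurable)
    (1 - θ) (p := fun l => 1 / (2 * (k l : ℝ))) (by rw [hθdef]; ring) (by linarith)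
    (fun l _ => by positivity)
  have h2 : ∀ u, (1 : ENNReal) ^ (1 - θ) * ∏ l, ENNReal.ofReal (G l (u + y) ^ (2 * k l)) ^
      (1 / (2 * (k l : ℝ))) = ENNReal.ofReal (∏ l, G l (u + y)) := by
    intro u
    rw [ENNReal.one_rpow, one_mul, ENNReal.ofReal_prod_of_nonneg fun l _ => hG0 l _]
    refine Finset.prod_congr rfl fun l _ => ?_
    have hkl : (0 : ℝ) < k l := by exact_mod_cast hk l
    rw [ENNReal.ofReal_rpow_of_nonneg (by have := hG0 l (u + y); positivity) (by positivity)]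
    congr 1
    rw [← Real.rpow_natCast, ← Real.rpow_mul (hG0 l _)]
    push_cast
    rw [mul_one_div_cancel (by positivity), Real.rpow_one]
  simp only [h2] at h1
  refine h1.trans ?_
  rw [ENNReal.ofReal_mul (by positivity)]
  refine mul_le_mul' ?_ ?_
  · rw [lintegral_const, one_mul, Measure.restrict_apply_univ]
    rw [← ENNReal.ofReal_rpow_of_nonneg measureReal_nonneg (by linarith), Measure.real,
      ENNReal.ofReal_toReal hEfin]
  · rw [hθdef, Real.rpow_sum_of_pos hQ, ENNReal.ofReal_prod_of_nonneg fun l _ => by positivity]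
    refine Finset.prod_le_prod' fun l _ => ?_
    rw [← ENNReal.ofReal_rpow_of_nonneg hQ.le (by positivity)]
    refine ENNReal.rpow_le_rpow ?_ (by positivity)
    refine (lintegral_moment_le (fun t => G l t ^ (2 * k l)) ((hG l).pow _)
      (fun t => by have := hG0 l t; positivity) hT hy E hE).trans ?_
    exact ENNReal.ofReal_le_ofReal (hmom l)

/-- choice of the exponents -/
theorem exists_exponent (K : ℕ) (hK : 1 ≤ K) (j : ℕ) {T : ℝ} (hT : 3 ≤ T)
    (hj : (j : ℝ) * Real.log 2 ≤ Real.log T) : ∃ k : ℕ, 1 ≤ k ∧ k ≤ K ∧ ((2 : ℝ) ^ j) ^ k ≤ T ∧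
      1 / (2 * (k : ℝ)) ≤ (j : ℝ) * Real.log 2 / Real.log T + 1 / (2 * K) := by
  classical
  have hTpos : 0 < T := by linarith
  have hlogT : 0 < Real.log T := Real.log_pos (by linarith)
  have hlog2 : 0 < Real.log 2 := Real.log_pos (by norm_num)
  have hpow : ∀ k : ℕ, ((2 : ℝ) ^ j) ^ k = Real.exp (k * (j * Real.log 2)) := by
    intro k
    rw [← pow_mul, ← Real.rpow_natCast, Real.rpow_def_of_pos (by norm_num)]
    congr 1
    push_cast
    ring
  set P : ℕ → Prop := fun k => ((2 : ℝ) ^ j) ^ k ≤ T with hP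
  have h1 : P 1 := by
    simp only [hP]
    rw [hpow, Nat.cast_one, one_mul]
    calc _ ≤ Real.exp (Real.log T) := Real.exp_le_exp.2 hj
      _ = T := Real.exp_log hTpos
  refine ⟨Nat.findGreatest P K, Nat.le_findGreatest hK h1, Nat.findGreatest_le K,
    Nat.findGreatest_spec hK h1, ?_⟩
  have hk1 : 1 ≤ Nat.findGreatest P K := Nat.le_findGreatest hK h1
  rcases (Nat.findGreatest_le (P := P) K).eq_or_lt with h | h
  · rw [h]
    have : 0 ≤ (j : ℝ) * Real.log 2 / Real.log T := by positivity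
    linarith
  · have h2 := Nat.findGreatest_is_greatest (Nat.lt_succ_self (Nat.findGreatest P K)) h
    set k := Nat.findGreatest P K with hk
    simp only [hP] at h2
    rw [hpow, not_le] at h2
    have h3 : Real.log T < (k.succ : ℝ) * (j * Real.log 2) := by
      rw [← Real.log_exp ((k.succ : ℝ) * (j * Real.log 2))]
      exact Real.log_lt_log hTpos h2
    have hk0 : (1 : ℝ) ≤ k := by exact_mod_cast hk1
    have h4 : 1 / (2 * (k : ℝ)) ≤ (j : ℝ) * Real.log 2 / Real.log T := by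
      rw [div_le_div_iff₀ (by positivity) hlogT]
      push_cast at h3
      have h5 : ((k : ℝ) + 1) * (j * Real.log 2) ≤ (2 * k) * (j * Real.log 2) :=
        mul_le_mul_of_nonneg_right (by linarith) (by positivity)
      linarith
    have h5 : (0 : ℝ) ≤ 1 / (2 * K) := by positivity
    linarith

theorem ba (h : T_MO) : T_BA := by
  classical
  intro ι _ f Y d t₀ β μ D hβ hY hD hDμ hr
  have hμ : 0 < μ := by linarith
  have hlog2 : 0 < Real.log 2 := Real.log_pos (by norm_num)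
  obtain ⟨CY, hCY, hgrow⟩ := hY.growth (1 / 2)
  set δ : ℝ := (1 - D / μ) / 2 with hδ
  have hDμ1 : D / μ < 1 := by rwa [div_lt_one hμ]
  have hDμ0 : 0 < D / μ := by positivity
  have hδ0 : 0 < δ := by linarith
  have hδ1 : δ ≤ 1 := by linarith
  obtain ⟨K, hK⟩ := exists_nat_ge ((Fintype.card ι : ℝ) / (2 * δ) + 1)
  have hK1 : 1 ≤ K := by
    have : (1 : ℝ) ≤ K := by
      have : 0 ≤ (Fintype.card ι : ℝ) / (2 * δ) := by positivity
      linarith
    exact_mod_cast this
  have hK0 : (0 : ℝ) < K := by exact_mod_cast hK1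
  have hKδ : (Fintype.card ι : ℝ) * (1 / (2 * K)) ≤ δ := by
    have h1 : (Fintype.card ι : ℝ) / (2 * δ) ≤ K := by linarith
    rw [div_le_iff₀ (by positivity)] at h1
    rw [mul_one_div, div_le_iff₀ (by positivity)]
    linarith
  -- moment constants
  have hmo : ∀ (k : ℕ) (l : ι), ∃ C : ℝ, 0 < C ∧ (1 ≤ k → ∀ (T : ℝ) (j : ℕ), 3 ≤ T →
      ((2 : ℝ) ^ j) ^ k ≤ T →
      ∫ t in (0 : ℝ)..(4 * T), ‖(f l).B j (1 / 2 + t * I)‖ ^ (2 * k) ≤ C * T * Real.log T ^ C) := by
    intro k l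
    by_cases hk : 1 ≤ k
    · obtain ⟨C, hC, hC'⟩ := h k (f l).r hk (f l).r_pos
      exact ⟨C, hC, fun _ T j hT hj => hC' (f l) T j rfl hT hj⟩
    · exact ⟨1, one_pos, fun hk' => absurd hk' hk⟩
  choose Cm hCm hCm' using hmo
  set C₀ : ℝ := 1 + ∑ l, ∑ k ∈ Finset.range (K + 1), Cm k l with hC₀
  have hCmle : ∀ l k, k ≤ K → Cm k l ≤ C₀ := by
    intro l k hk
    have h1 : Cm k l ≤ ∑ k ∈ Finset.range (K + 1), Cm k l :=
      Finset.single_le_sum (f := fun k => Cm k l) (fun k _ => (hCm k l).le)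
        (Finset.mem_range.2 (Nat.lt_succ_of_le hk))
    have h2 : ∑ k ∈ Finset.range (K + 1), Cm k l ≤ ∑ l, ∑ k ∈ Finset.range (K + 1), Cm k l :=
      Finset.single_le_sum (f := fun l => ∑ k ∈ Finset.range (K + 1), Cm k l)
        (fun l _ => Finset.sum_nonneg fun k _ => (hCm k l).le) (Finset.mem_univ l)
    linarith
  have hC₀1 : 1 ≤ C₀ := by
    have : 0 ≤ ∑ l, ∑ k ∈ Finset.range (K + 1), Cm k l :=
      Finset.sum_nonneg fun l _ => Finset.sum_nonneg fun k _ => (hCm k l).le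
    linarith
  have hlogq : Tendsto (fun T : ℝ => Real.log T / T) atTop (𝓝 0) := by
    have := Real.isLittleO_log_id_atTop.tendsto_div_nhds_zero
    simpa using this
  obtain ⟨T₀, hT₀⟩ := eventually_atTop.1
    ((hlogq.eventually_le_const (show (0 : ℝ) < 1 / 2 by norm_num)).and
      ((eventually_ge_atTop 3).and (eventually_ge_atTop (2 * t₀))))
  refine ⟨δ, CY * C₀ + C₀, T₀, hδ0, hδ1, by positivity, fun T hT j hj E hEm hE => ?_⟩
  obtain ⟨s1, hT3, s3⟩ := hT₀ T hT
  have hTpos : 0 < T := by linarith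
  have hlogT : 0 < Real.log T := Real.log_pos (by linarith)
  have hlogT1 : 1 ≤ Real.log T := by
    have h1 : Real.exp 1 ≤ T := by
      have := Real.exp_one_lt_d9
      linarith
    calc (1 : ℝ) = Real.log (Real.exp 1) := (Real.log_exp 1).symm
      _ ≤ Real.log T := Real.log_le_log (Real.exp_pos 1) h1
  rw [div_le_iff₀ hTpos] at s1
  set R := Real.log T with hR
  have hjm := mem_mains f hμ hD (by linarith) j hj
  -- the exponents
  have hex : ∀ l, ∃ k : ℕ, 1 ≤ k ∧ k ≤ K ∧ ((2 : ℝ) ^ (j l)) ^ k ≤ T ∧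
      1 / (2 * (k : ℝ)) ≤ (j l : ℝ) * Real.log 2 / Real.log T + 1 / (2 * K) := by
    intro l
    refine exists_exponent K hK1 (j l) hT3 ?_
    have h1 := hjm.1 l
    have h2 : (j l : ℝ) * Real.log 2 * μ ≤ Real.log T * μ := by
      have : D * Real.log T ≤ μ * Real.log T := mul_le_mul_of_nonneg_right hDμ.le hlogT.le
      linarith
    exact le_of_mul_le_mul_right h2 hμ
  choose k hk1 hkK hkT hkθ using hex
  set θ := ∑ l, 1 / (2 * (k l : ℝ)) with hθdef
  have hθ0 : 0 ≤ θ := Finset.sum_nonneg fun l _ => by positivity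
  have hθ : θ ≤ 1 - δ := by
    have h1 : θ ≤ ∑ l, ((j l : ℝ) * Real.log 2 / Real.log T + 1 / (2 * K)) :=
      Finset.sum_le_sum fun l _ => hkθ l
    rw [Finset.sum_add_distrib, ← Finset.sum_div, Finset.sum_const, Finset.card_univ,
      nsmul_eq_mul] at h1
    have h2 : (∑ l, (j l : ℝ) * Real.log 2) / Real.log T ≤ D / μ := by
      rw [div_le_div_iff₀ hlogT hμ]
      refine le_trans ?_ hjm.2
      rw [Finset.sum_mul]
      refine Finset.sum_le_sum fun l _ => ?_
      have : (j l : ℝ) * Real.log 2 * μ ≤ (j l : ℝ) * Real.log 2 * (f l).r :=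
        mul_le_mul_of_nonneg_left (hr l) (by positivity)
      linarith
    linarith
  set Q : ℝ := C₀ * T * Real.log T ^ C₀ with hQ
  have hQpos : 0 < Q := by positivity
  have hmom : ∀ l, ∫ t in (0 : ℝ)..(4 * T), ‖(f l).B (j l) (1 / 2 + t * I)‖ ^ (2 * k l) ≤ Q := by
    intro l
    refine (hCm' (k l) l (hk1 l) T (j l) hT3 (hkT l)).trans ?_
    have h1 := hCmle l (k l) (hkK l)
    refine mul_le_mul (mul_le_mul_of_nonneg_right h1 hTpos.le)
      (Real.rpow_le_rpow_of_exponent_le hlogT1 h1) (by positivity) (by positivity)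
  set m := volume.real E with hm
  have hm0 : 0 ≤ m := measureReal_nonneg
  have hEfin : volume E ≠ ⊤ := by
    refine ne_top_of_le_ne_top ?_ (measure_mono hE)
    rw [Real.volume_Icc]
    exact ENNReal.ofReal_ne_top
  have hmT : m ≤ T := by
    have h1 : m ≤ volume.real (Icc T (2 * T)) := measureReal_mono hE (by
      rw [Real.volume_Icc]
      exact ENNReal.ofReal_ne_top)
    rw [Real.volume_real_Icc_of_le (by linarith)] at h1
    linarith
  -- Hölder
  have hGc : ∀ l, Continuous fun t : ℝ => ‖(f l).B (j l) (1 / 2 + t * I)‖ := fun l =>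
    ((differentiable_B (f l) (j l)).continuous.comp (by fun_prop)).norm
  have hH : ∀ y : ℝ, |y| ≤ R → ∫⁻ u in E, ENNReal.ofReal ‖Pj f j (1 / 2 + (u + y : ℝ) * I)‖ ≤
      ENNReal.ofReal (m ^ (1 - θ) * Q ^ θ) := by
    intro y hy
    have h1 := hoelder (fun l t => ‖(f l).B (j l) (1 / 2 + t * I)‖) hGc (fun l t => norm_nonneg _)
      k hk1 hTpos hQpos (hy.trans (by linarith)) E hE (by linarith) hmom
    refine le_trans (le_of_eq ?_) h1
    refine lintegral_congr fun u => ?_
    rw [Pj, norm_prod]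
  -- the integral over `y`
  have hgs : ∫⁻ y in Ioc (-R) R, ENNReal.ofReal ‖gs β (y * I)‖ ≤ 1 := by
    have h1 := intervalIntegral_norm_gs_le hβ 0 R hlogT.le
    simp only [Complex.ofReal_zero, zero_add] at h1
    rw [intervalIntegral.integral_of_le (by linarith)] at h1
    have hc : Continuous fun y : ℝ => gs β (y * I) := by
      have := continuous_gs β 0
      simpa using this
    rw [← ofReal_integral_eq_lintegral_ofReal (hc.norm.integrableOn_Ioc)
      (Eventually.of_forall fun y => norm_nonneg _)]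
    rw [show (1 : ENNReal) = ENNReal.ofReal 1 by simp]
    refine ENNReal.ofReal_le_ofReal (h1.trans (le_of_eq ?_))
    simp
  have hYb : ∀ t : ℝ, t₀ ≤ t → ‖Y (1 / 2 + t * I)‖ ≤ CY := by
    intro t ht
    have h1 := hgrow (1 / 2) t le_rfl le_rfl ht
    rw [sub_self, mul_zero, Real.rpow_zero, mul_one] at h1
    convert h1 using 4
    push_cast
    rfl
  have hpoint : ∀ u ∈ E, ENNReal.ofReal ‖KJ f Y β R j u‖ ≤
      ENNReal.ofReal CY * ∫⁻ y in Ioc (-R) R, ENNReal.ofReal ‖Pj f j (1 / 2 + (u + y : ℝ) * I)‖ *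
        ENNReal.ofReal ‖gs β (y * I)‖ := by
    intro u hu
    rw [KJ, intervalIntegral.integral_of_le (by linarith), ofReal_norm]
    refine (enorm_integral_le_lintegral_enorm _).trans ?_
    rw [← lintegral_const_mul' _ _ ENNReal.ofReal_ne_top]
    refine setLIntegral_mono' measurableSet_Ioc fun y hy => ?_
    rw [← ofReal_norm, norm_mul, norm_mul, ENNReal.ofReal_mul (by positivity),
      ENNReal.ofReal_mul (by positivity), ← mul_assoc]
    refine mul_le_mul_left ?_ _
    rw [mul_comm]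
    refine mul_le_mul_left ?_ _
    refine ENNReal.ofReal_le_ofReal (hYb _ ?_)
    linarith [(hE hu).1, hy.1]
  have hmeas : Measurable fun p : ℝ × ℝ => ENNReal.ofReal ‖Pj f j (1 / 2 + (p.1 + p.2 : ℝ) * I)‖ *
        ENNReal.ofReal ‖gs β (p.2 * I)‖ := by
    have c1 : Continuous fun p : ℝ × ℝ => Pj f j (1 / 2 + (p.1 + p.2 : ℝ) * I) :=
      (differentiable_Pj f j).continuous.comp (by fun_prop)
    have c2 : Continuous fun p : ℝ × ℝ => gs β (p.2 * I) :=
      (differentiable_gs β).continuous.comp (by fun_prop)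
    exact (ENNReal.measurable_ofReal.comp c1.norm.measurable).mul
      (ENNReal.measurable_ofReal.comp c2.norm.measurable)
  have hmain : ∫⁻ u in E, ENNReal.ofReal ‖KJ f Y β R j u‖ ≤
      ENNReal.ofReal (CY * (m ^ (1 - θ) * Q ^ θ)) := by
    calc ∫⁻ u in E, ENNReal.ofReal ‖KJ f Y β R j u‖
        ≤ ∫⁻ u in E, ENNReal.ofReal CY * ∫⁻ y in Ioc (-R) R,
          ENNReal.ofReal ‖Pj f j (1 / 2 + (u + y : ℝ) * I)‖ * ENNReal.ofReal ‖gs β (y * I)‖ :=
          setLIntegral_mono' hEm hpoint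
      _ = ENNReal.ofReal CY * ∫⁻ u in E, ∫⁻ y in Ioc (-R) R,
          ENNReal.ofReal ‖Pj f j (1 / 2 + (u + y : ℝ) * I)‖ * ENNReal.ofReal ‖gs β (y * I)‖ :=
          lintegral_const_mul' _ _ ENNReal.ofReal_ne_top
      _ = ENNReal.ofReal CY * ∫⁻ y in Ioc (-R) R, ∫⁻ u in E,
          ENNReal.ofReal ‖Pj f j (1 / 2 + (u + y : ℝ) * I)‖ * ENNReal.ofReal ‖gs β (y * I)‖ := by
          congr 1
          exact lintegral_lintegral_swap (f := fun u y : ℝ =>
            ENNReal.ofReal ‖Pj f j (1 / 2 + (u + y : ℝ) * I)‖ * ENNReal.ofReal ‖gs β (y * I)‖)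
            hmeas.aemeasurable
      _ ≤ ENNReal.ofReal CY * ∫⁻ y in Ioc (-R) R,
          ENNReal.ofReal (m ^ (1 - θ) * Q ^ θ) * ENNReal.ofReal ‖gs β (y * I)‖ := by
          refine mul_le_mul_right ?_ _
          refine setLIntegral_mono' measurableSet_Ioc fun y hy => ?_
          rw [lintegral_mul_const' _ _ ENNReal.ofReal_ne_top]
          refine mul_le_mul_left (hH y (abs_le.2 ⟨hy.1.le, hy.2⟩)) _
      _ = ENNReal.ofReal CY * (ENNReal.ofReal (m ^ (1 - θ) * Q ^ θ) *
          ∫⁻ y in Ioc (-R) R, ENNReal.ofReal ‖gs β (y * I)‖) := by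
          rw [lintegral_const_mul' _ _ ENNReal.ofReal_ne_top]
      _ ≤ ENNReal.ofReal CY * (ENNReal.ofReal (m ^ (1 - θ) * Q ^ θ) * 1) := by
          refine mul_le_mul_right (mul_le_mul_right hgs _) _
      _ = _ := by
          rw [mul_one, ENNReal.ofReal_mul hCY.le]
  -- real form
  have hreal : ∫ u in E, ‖KJ f Y β R j u‖ ≤ CY * (m ^ (1 - θ) * Q ^ θ) := by
    by_cases hms : AEStronglyMeasurable (fun u => ‖KJ f Y β R j u‖) (volume.restrict E)
    · rw [integral_eq_lintegral_of_nonneg_ae (Eventually.of_forall fun u => norm_nonneg _) hms]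
      refine ENNReal.toReal_le_of_le_ofReal (by positivity) hmain
    · rw [integral_undef fun hcon => hms hcon.aestronglyMeasurable]
      positivity
  refine hreal.trans ?_
  have hlogC : 1 ≤ Real.log T ^ C₀ := Real.one_le_rpow hlogT1 (by linarith)
  have hQθ : Q ^ θ ≤ C₀ * Real.log T ^ C₀ * T ^ θ := by
    have h1 : Q = (C₀ * Real.log T ^ C₀) * T := by rw [hQ]; ring
    rw [h1, Real.mul_rpow (by positivity) hTpos.le]
    refine mul_le_mul_of_nonneg_right ?_ (by positivity)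
    have h2 : 1 ≤ C₀ * Real.log T ^ C₀ := by nlinarith
    calc (C₀ * Real.log T ^ C₀) ^ θ ≤ (C₀ * Real.log T ^ C₀) ^ (1 : ℝ) :=
          Real.rpow_le_rpow_of_exponent_le h2 (by linarith)
      _ = _ := Real.rpow_one _
  have hmθ : m ^ (1 - θ) * T ^ θ ≤ m ^ δ * T ^ (1 - δ) := by
    rcases hm0.eq_or_lt with h0 | h0
    · rw [← h0, Real.zero_rpow (by linarith), zero_mul, Real.zero_rpow hδ0.ne', zero_mul]
    · have h1 : m ^ (1 - θ) = m ^ δ * m ^ (1 - θ - δ) := by
        rw [← Real.rpow_add h0]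
        congr 1
        ring
      have h2 : T ^ (1 - δ) = T ^ (1 - θ - δ) * T ^ θ := by
        rw [← Real.rpow_add hTpos]
        congr 1
        ring
      rw [h1, h2, mul_assoc]
      refine mul_le_mul_of_nonneg_left (mul_le_mul_of_nonneg_right ?_ (by positivity)) (by positivity)
      exact Real.rpow_le_rpow h0.le hmT (by linarith)
  have hlogC2 : Real.log T ^ C₀ ≤ Real.log T ^ (CY * C₀ + C₀) :=
    Real.rpow_le_rpow_of_exponent_le hlogT1 (by nlinarith [mul_pos hCY (by linarith : 0 < C₀)])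
  calc CY * (m ^ (1 - θ) * Q ^ θ) ≤ CY * (m ^ (1 - θ) * (C₀ * Real.log T ^ C₀ * T ^ θ)) := by
        gcongr
    _ = CY * C₀ * Real.log T ^ C₀ * (m ^ (1 - θ) * T ^ θ) := by ring
    _ ≤ (CY * C₀ + C₀) * Real.log T ^ (CY * C₀ + C₀) * (m ^ δ * T ^ (1 - δ)) := by
        refine mul_le_mul (mul_le_mul (by linarith) hlogC2 (by positivity) (by positivity)) hmθ
          (by positivity) (by positivity)
    _ = _ := by ring

end Pool.Agent.H11.DL
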