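import Pool.Agent.H25.DL.Targets

/-!
# Dilated zeros: common lemmas for LE, TR, SH, EX, BA
-/

set_option autoImplicit false

open Complex MeasureTheory Set Filter Topology

namespace Pool.Agent.H11.DL

open Pool.Agent.H25.DL

theorem wl_re (r τ : ℝ) (s : ℂ) : (wl r τ s).re = 1 / 2 + r * (s.re - 1 / 2) := by
  simp [wl]

theorem norm_term (f : Fac) (s : ℂ) (n : ℕ) (hn : 0 < n) :
    ‖f.c n * (n : ℂ) ^ (-(wl f.r f.τ s))‖ ≤ (n : ℝ) ^ (-(1 / 2 + f.r * (s.re - 1 / 2))) := by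
  rw [norm_mul, Complex.norm_natCast_cpow_of_pos hn, neg_re, wl_re]
  calc ‖f.c n‖ * (n : ℝ) ^ (-(1 / 2 + f.r * (s.re - 1 / 2)))
      ≤ 1 * (n : ℝ) ^ (-(1 / 2 + f.r * (s.re - 1 / 2))) := by
        gcongr
        exact f.c_le n
    _ = _ := one_mul _

theorem norm_term' (f : Fac) (s : ℂ) (n : ℕ) :
    ‖f.c n * (n : ℂ) ^ (-(wl f.r f.τ s))‖ ≤ (n : ℝ) ^ (-(1 / 2 + f.r * (s.re - 1 / 2))) := by
  rcases Nat.eq_zero_or_pos n with rfl | hn
  · rw [f.c_zero, zero_mul, norm_zero]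
    positivity
  · exact norm_term f s n hn

theorem summable_term (f : Fac) (s : ℂ) (h : 1 < 1 / 2 + f.r * (s.re - 1 / 2)) :
    Summable fun n : ℕ => f.c n * (n : ℂ) ^ (-(wl f.r f.τ s)) := by
  refine Summable.of_norm_bounded (Real.summable_nat_rpow.2 (neg_lt_neg h)) ?_
  exact norm_term' f s

theorem continuous_term (f : Fac) (n : ℕ) (b : ℂ) :
    Continuous fun t : ℝ => f.c n * (n : ℂ) ^ (-(wl f.r f.τ (b + t * I))) := by
  rcases Nat.eq_zero_or_pos n with rfl | hn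
  · simp only [f.c_zero, zero_mul]
    exact continuous_const
  · have hn' : (n : ℂ) ≠ 0 := by exact_mod_cast hn.ne'
    refine continuous_const.mul (Continuous.const_cpow ?_ (Or.inl hn'))
    unfold wl
    fun_prop

theorem continuous_D (f : Fac) (b : ℝ) (h : 1 < 1 / 2 + f.r * (b - 1 / 2)) :
    Continuous fun t : ℝ => f.D (b + t * I) := by
  refine continuous_tsum (fun n => continuous_term f n b) (Real.summable_nat_rpow.2 (neg_lt_neg h)) ?_
  intro n t
  have := norm_term' f (b + t * I) n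
  simpa using this

theorem re_line (β t : ℝ) : ((1 / 2 + β + t * I : ℂ)).re = 1 / 2 + β := by
  simp

theorem im_line (β t : ℝ) : ((1 / 2 + β + t * I : ℂ)).im = t := by
  simp

theorem line_eq (β t : ℝ) : (1 / 2 + β + t * I : ℂ) = ((1 / 2 + β : ℝ) : ℂ) + t * I := by
  push_cast; ring

section Gauss

theorem norm_gs {β : ℝ} (hβ : 0 < β) (x y : ℝ) :
    ‖gs β (x + y * I)‖ = Real.exp ((x ^ 2 - y ^ 2) / β ^ 2) / (β * Real.sqrt Real.pi) := by
  have h0 : (β : ℂ) ≠ 0 := by exact_mod_cast hβ.ne'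
  have h1 : (((x + y * I) / β) ^ 2 : ℂ) =
      (((x ^ 2 - y ^ 2) / β ^ 2 : ℝ) : ℂ) + ((2 * x * y / β ^ 2 : ℝ) : ℂ) * I := by
    push_cast
    field_simp
    linear_combination (y : ℂ) ^ 2 * I_sq
  rw [gs, norm_div, h1, Complex.norm_exp]
  have h2 : ‖((β : ℂ) * (Real.sqrt Real.pi : ℂ))‖ = β * Real.sqrt Real.pi := by
    rw [← Complex.ofReal_mul, Complex.norm_real, Real.norm_of_nonneg (by positivity)]
  rw [h2, Complex.add_re, Complex.ofReal_re, Complex.re_ofReal_mul, Complex.I_re, mul_zero,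
    add_zero]

theorem continuous_gs (β : ℝ) (z : ℂ) : Continuous fun y : ℝ => gs β (z + y * I) := by
  unfold gs
  fun_prop

theorem differentiable_gs (β : ℝ) : Differentiable ℂ (gs β) := by
  unfold gs
  fun_prop

theorem integrable_gauss {β : ℝ} (hβ : 0 < β) (x : ℝ) :
    Integrable fun y : ℝ => Real.exp ((x ^ 2 - y ^ 2) / β ^ 2) / (β * Real.sqrt Real.pi) := by
  have h1 : (fun y : ℝ => Real.exp ((x ^ 2 - y ^ 2) / β ^ 2) / (β * Real.sqrt Real.pi)) =
      fun y : ℝ => (Real.exp (x ^ 2 / β ^ 2) / (β * Real.sqrt Real.pi)) *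
        Real.exp (-(1 / β ^ 2) * y ^ 2) := by
    funext y
    rw [show (x ^ 2 - y ^ 2) / β ^ 2 = x ^ 2 / β ^ 2 + -(1 / β ^ 2) * y ^ 2 by ring, Real.exp_add]
    ring
  rw [h1]
  exact (integrable_exp_neg_mul_sq (by positivity)).const_mul _

theorem integral_gauss {β : ℝ} (hβ : 0 < β) (x : ℝ) :
    ∫ y : ℝ, Real.exp ((x ^ 2 - y ^ 2) / β ^ 2) / (β * Real.sqrt Real.pi) =
      Real.exp (x ^ 2 / β ^ 2) := by
  have h1 : (fun y : ℝ => Real.exp ((x ^ 2 - y ^ 2) / β ^ 2) / (β * Real.sqrt Real.pi)) =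
      fun y : ℝ => (Real.exp (x ^ 2 / β ^ 2) / (β * Real.sqrt Real.pi)) *
        Real.exp (-(1 / β ^ 2) * y ^ 2) := by
    funext y
    rw [show (x ^ 2 - y ^ 2) / β ^ 2 = x ^ 2 / β ^ 2 + -(1 / β ^ 2) * y ^ 2 by ring, Real.exp_add]
    ring
  rw [h1, integral_const_mul, integral_gaussian]
  rw [show Real.pi / (1 / β ^ 2) = β ^ 2 * Real.pi by field_simp,
    Real.sqrt_mul (by positivity), Real.sqrt_sq hβ.le]
  have : 0 < Real.sqrt Real.pi := Real.sqrt_pos.2 Real.pi_pos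
  field_simp

theorem integrable_gs {β : ℝ} (hβ : 0 < β) (x : ℝ) :
    Integrable fun y : ℝ => gs β (x + y * I) := by
  refine (integrable_gauss hβ x).mono' (continuous_gs β x).aestronglyMeasurable ?_
  exact Eventually.of_forall fun y => (norm_gs hβ x y).le

/-- the mass of `|gs|` on an interval -/
theorem intervalIntegral_norm_gs_le {β : ℝ} (hβ : 0 < β) (x R : ℝ) (hR : 0 ≤ R) :
    ∫ y in (-R)..R, ‖gs β (x + y * I)‖ ≤ Real.exp (x ^ 2 / β ^ 2) := by
  rw [intervalIntegral.integral_of_le (by linarith), ← integral_gauss hβ x]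
  have h1 : Integrable fun y : ℝ => ‖gs β (x + y * I)‖ := (integrable_gs hβ x).norm
  calc ∫ y in Ioc (-R) R, ‖gs β (x + y * I)‖ ≤ ∫ y : ℝ, ‖gs β (x + y * I)‖ :=
        setIntegral_le_integral h1 (Eventually.of_forall fun y => norm_nonneg _)
    _ = _ := by simp only [norm_gs hβ]

theorem integral_gs {β : ℝ} (hβ : 0 < β) (x : ℝ) : ∫ y : ℝ, gs β (x + y * I) = 1 := by
  have h0 : (β : ℂ) ≠ 0 := by exact_mod_cast hβ.ne'
  have hπ : ((Real.sqrt Real.pi : ℝ) : ℂ) ≠ 0 := by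
    have : Real.sqrt Real.pi ≠ 0 := (Real.sqrt_pos.2 Real.pi_pos).ne'
    exact_mod_cast this
  have h1 : (fun y : ℝ => gs β (x + y * I)) = fun y : ℝ =>
      ((β : ℂ) * (Real.sqrt Real.pi : ℂ))⁻¹ *
        cexp (-(1 / β ^ 2 : ℂ) * (y : ℂ) ^ 2 + (2 * x * I / β ^ 2) * y + x ^ 2 / β ^ 2) := by
    funext y
    rw [gs, div_eq_inv_mul]
    congr 2
    field_simp
    linear_combination (y : ℂ) ^ 2 * I_sq
  have hre : (-(1 / (β : ℂ) ^ 2)).re < 0 := by
    have : (-(1 / (β : ℂ) ^ 2)) = ((-(1 / β ^ 2) : ℝ) : ℂ) := by push_cast; ring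
    rw [this, Complex.ofReal_re]
    have : 0 < 1 / β ^ 2 := by positivity
    linarith
  have h2 : (x : ℂ) ^ 2 / β ^ 2 - (2 * x * I / β ^ 2) ^ 2 / (4 * -(1 / (β : ℂ) ^ 2)) = 0 := by
    have hI : (2 * (x : ℂ) * I / β ^ 2) ^ 2 = -(4 * x ^ 2 / β ^ 4) := by
      rw [div_pow, mul_pow, I_sq]; ring
    rw [hI]
    field_simp
    ring
  have h3 : ((Real.pi : ℂ) / -(-(1 / (β : ℂ) ^ 2))) ^ (1 / 2 : ℂ) = β * (Real.sqrt Real.pi : ℂ) := by
    have e1 : (Real.pi : ℂ) / -(-(1 / (β : ℂ) ^ 2)) = ((β ^ 2 * Real.pi : ℝ) : ℂ) := by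
      push_cast; field_simp
    have e2 : (1 / 2 : ℂ) = ((1 / 2 : ℝ) : ℂ) := by push_cast; ring
    rw [e1, e2, ← Complex.ofReal_cpow (by positivity), ← Real.sqrt_eq_rpow,
      Real.sqrt_mul (by positivity), Real.sqrt_sq hβ.le]
    push_cast
    ring
  rw [h1, integral_const_mul, integral_cexp_quadratic hre, h2, h3, Complex.exp_zero, mul_one]
  field_simp

end Gauss

section Shift

/-- shifting the contour in a rectangle -/
theorem shift_rect (F : ℂ → ℂ) {a b u R M : ℝ} (hab : a ≤ b) (hR : 0 ≤ R)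
    (hd : ∀ s : ℂ, a ≤ s.re → s.re ≤ b → |s.im - u| ≤ R → DifferentiableAt ℂ F s)
    (h1 : ∀ x : ℝ, a ≤ x → x ≤ b → ‖F (x + (u - R : ℝ) * I)‖ ≤ M)
    (h2 : ∀ x : ℝ, a ≤ x → x ≤ b → ‖F (x + (u + R : ℝ) * I)‖ ≤ M) :
    ‖(∫ y in (-R)..R, F (b + (u + y : ℝ) * I)) - ∫ y in (-R)..R, F (a + (u + y : ℝ) * I)‖ ≤
      2 * (b - a) * M := by
  have key := Complex.integral_boundary_rect_eq_zero_of_differentiableOn F
    (a + (u - R : ℝ) * I) (b + (u + R : ℝ) * I) ?_
  · have e1 : ((a : ℂ) + (u - R : ℝ) * I).re = a := by simp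
    have e2 : ((b : ℂ) + (u + R : ℝ) * I).re = b := by simp
    have e3 : ((a : ℂ) + (u - R : ℝ) * I).im = u - R := by simp
    have e4 : ((b : ℂ) + (u + R : ℝ) * I).im = u + R := by simp
    rw [e1, e2, e3, e4] at key
    have c1 : ∫ y in (-R)..R, F (b + (u + y : ℝ) * I) = ∫ y in (u - R)..(u + R), F (b + y * I) := by
      rw [intervalIntegral.integral_comp_add_left (fun y : ℝ => F (b + (y : ℝ) * I)) u,
        ← sub_eq_add_neg]
    have c2 : ∫ y in (-R)..R, F (a + (u + y : ℝ) * I) = ∫ y in (u - R)..(u + R), F (a + y * I) := by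
      rw [intervalIntegral.integral_comp_add_left (fun y : ℝ => F (a + (y : ℝ) * I)) u,
        ← sub_eq_add_neg]
    rw [c1, c2]
    have h3 : I * ((∫ y in (u - R)..(u + R), F (b + y * I)) - ∫ y in (u - R)..(u + R), F (a + y * I)) =
        (∫ x in a..b, F (x + (u + R : ℝ) * I)) - ∫ x in a..b, F (x + (u - R : ℝ) * I) := by
      simp only [smul_eq_mul] at key
      linear_combination key
    have h4 : ‖(∫ y in (u - R)..(u + R), F (b + y * I)) - ∫ y in (u - R)..(u + R), F (a + y * I)‖ =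
        ‖(∫ x in a..b, F (x + (u + R : ℝ) * I)) - ∫ x in a..b, F (x + (u - R : ℝ) * I)‖ := by
      rw [← h3, norm_mul, Complex.norm_I, one_mul]
    rw [h4]
    have b1 : ‖∫ x in a..b, F (x + (u + R : ℝ) * I)‖ ≤ M * |b - a| :=
      intervalIntegral.norm_integral_le_of_norm_le_const fun x hx => by
        rw [uIoc_of_le hab] at hx
        exact h2 x hx.1.le hx.2
    have b2 : ‖∫ x in a..b, F (x + (u - R : ℝ) * I)‖ ≤ M * |b - a| :=
      intervalIntegral.norm_integral_le_of_norm_le_const fun x hx => by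
        rw [uIoc_of_le hab] at hx
        exact h1 x hx.1.le hx.2
    rw [abs_of_nonneg (by linarith)] at b1 b2
    calc _ ≤ ‖∫ x in a..b, F (x + (u + R : ℝ) * I)‖ + ‖∫ x in a..b, F (x + (u - R : ℝ) * I)‖ :=
          norm_sub_le _ _
      _ ≤ 2 * (b - a) * M := by linarith
  · intro s hs
    have e1 : ((a : ℂ) + (u - R : ℝ) * I).re = a := by simp
    have e2 : ((b : ℂ) + (u + R : ℝ) * I).re = b := by simp
    have e3 : ((a : ℂ) + (u - R : ℝ) * I).im = u - R := by simp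
    have e4 : ((b : ℂ) + (u + R : ℝ) * I).im = u + R := by simp
    rw [e1, e2, e3, e4, Complex.mem_reProdIm, uIcc_of_le hab, uIcc_of_le (by linarith)] at hs
    obtain ⟨⟨h5, h6⟩, h7, h8⟩ := hs
    exact (hd s h5 h6 (abs_le.2 ⟨by linarith, by linarith⟩)).differentiableWithinAt

theorem tend_aux (a b κ : ℝ) (hκ : 0 < κ) :
    Tendsto (fun T : ℝ => Real.exp (a * Real.log T + b - κ * Real.log T ^ 2)) atTop (𝓝 0) := by
  refine Real.tendsto_exp_atBot.comp ?_
  have h1 : Tendsto (fun x : ℝ => x * (a - κ * x)) atTop atBot := by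
    refine Tendsto.atTop_mul_atBot₀ tendsto_id ?_
    have : Tendsto (fun x : ℝ => κ * x) atTop atTop := tendsto_id.const_mul_atTop hκ
    have h2 := tendsto_neg_atTop_atBot.comp this
    have h3 := tendsto_atBot_add_const_left atTop a h2
    refine h3.congr fun x => ?_
    simp [sub_eq_add_neg]
  have h2 := (tendsto_atBot_add_const_left atTop b h1).comp Real.tendsto_log_atTop
  refine h2.congr fun x => ?_
  simp only [Function.comp]
  ring

end Shift

end Pool.Agent.H11.DL
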