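import Pool.Agent.H11.DL.Base

/-!
# Dilated zeros: module TR, truncation
-/

set_option autoImplicit false

open Complex MeasureTheory Set Filter Topology

namespace Pool.Agent.H11.DL

open Pool.Agent.H25.DL

theorem norm_B_le (f : Fac) (j : ℕ) (s : ℂ) (hs : 1 / 2 ≤ s.re) :
    ‖f.B j s‖ ≤ Real.exp ((j : ℝ) * (1 / 2 - f.r * (s.re - 1 / 2)) * Real.log 2) := by
  have hr := f.r_pos
  set x := 1 / 2 + f.r * (s.re - 1 / 2) with hx
  have hx0 : 0 ≤ x := by
    have : 0 ≤ f.r * (s.re - 1 / 2) := mul_nonneg hr.le (by linarith)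
    linarith
  have h1 : ∀ n ∈ Finset.Ico (2 ^ j) (2 ^ (j + 1)), ‖f.c n * (n : ℂ) ^ (-(wl f.r f.τ s))‖ ≤
      ((2 : ℝ) ^ j) ^ (-x) := by
    intro n hn
    rw [Finset.mem_Ico] at hn
    refine (norm_term' f s n).trans ?_
    rw [← hx]
    have h2 : ((2 : ℝ) ^ j) ≤ n := by exact_mod_cast hn.1
    exact Real.rpow_le_rpow_of_nonpos (by positivity) h2 (by linarith)
  unfold Fac.B
  refine (norm_sum_le _ _).trans ((Finset.sum_le_card_nsmul _ _ _ h1).trans ?_)
  rw [Nat.card_Ico, nsmul_eq_mul, pow_succ]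
  have h3 : ((2 ^ j * 2 - 2 ^ j : ℕ) : ℝ) = (2 : ℝ) ^ j := by
    have : 2 ^ j * 2 - 2 ^ j = 2 ^ j := by omega
    rw [this]; push_cast; rfl
  rw [h3]
  have h4 : (2 : ℝ) ^ j = Real.exp (j * Real.log 2) := by
    rw [mul_comm, Real.exp_mul, Real.exp_log (by norm_num), Real.rpow_natCast]
  rw [h4, ← Real.exp_mul, ← Real.exp_add]
  refine Real.exp_le_exp.2 (le_of_eq ?_)
  rw [hx]
  ring

theorem norm_Pj_le {ι : Type} [Fintype ι] (f : ι → Fac) (j : ι → ℕ) (s : ℂ) (hs : 1 / 2 ≤ s.re) :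
    ‖Pj f j s‖ ≤ Real.exp ((∑ l, (j l : ℝ)) / 2 * Real.log 2 -
      (s.re - 1 / 2) * ∑ l, (j l : ℝ) * (f l).r * Real.log 2) := by
  unfold Pj
  rw [norm_prod]
  refine (Finset.prod_le_prod (fun l _ => norm_nonneg _) fun l _ => norm_B_le (f l) (j l) s hs).trans ?_
  rw [← Real.exp_sum]
  refine Real.exp_le_exp.2 (le_of_eq ?_)
  rw [Finset.mul_sum, Finset.sum_div, Finset.sum_mul, ← Finset.sum_sub_distrib]
  refine Finset.sum_congr rfl fun l _ => ?_
  ring

theorem sum_B (f : Fac) (s : ℂ) (J : ℕ) :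
    ∑ j ∈ Finset.range J, f.B j s =
      ∑ n ∈ Finset.range (2 ^ J), f.c n * (n : ℂ) ^ (-(wl f.r f.τ s)) := by
  induction J with
  | zero => simp [f.c_zero]
  | succ J ih =>
    rw [Finset.sum_range_succ, ih, Fac.B, Finset.range_eq_Ico, Finset.range_eq_Ico,
      Finset.sum_Ico_consecutive _ (Nat.zero_le _) (Nat.pow_le_pow_right (by norm_num) (Nat.le_succ J))]

theorem tsum_tail_le (N : ℕ) :
    ∑' n : ℕ, ((n + N : ℕ) : ℝ) ^ (-(2 : ℝ)) ≤ ∑' n : ℕ, (n : ℝ) ^ (-(2 : ℝ)) := by
  have h := (Real.summable_nat_rpow.2 (show (-2 : ℝ) < -1 by norm_num))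
  rw [← h.sum_add_tsum_nat_add N]
  have : 0 ≤ ∑ i ∈ Finset.range N, (i : ℝ) ^ (-(2 : ℝ)) :=
    Finset.sum_nonneg fun i _ => by positivity
  linarith

theorem norm_tail_le (f : Fac) (s : ℂ) (N : ℕ) (hN : 1 ≤ N)
    (h : 2 ≤ 1 / 2 + f.r * (s.re - 1 / 2)) :
    ‖f.D s - ∑ n ∈ Finset.range N, f.c n * (n : ℂ) ^ (-(wl f.r f.τ s))‖ ≤
      (N : ℝ) ^ (-(1 / 2 + f.r * (s.re - 1 / 2) - 2)) * ∑' n : ℕ, (n : ℝ) ^ (-(2 : ℝ)) := by
  set x := 1 / 2 + f.r * (s.re - 1 / 2) with hx
  have hsum := summable_term f s (by linarith)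
  rw [Fac.D, ← hsum.sum_add_tsum_nat_add N, add_sub_cancel_left]
  have h2 : Summable fun n : ℕ => (N : ℝ) ^ (-(x - 2)) * ((n + N : ℕ) : ℝ) ^ (-(2 : ℝ)) :=
    ((summable_nat_add_iff N).2 (Real.summable_nat_rpow.2 (show (-2 : ℝ) < -1 by norm_num))).mul_left _
  refine (tsum_of_norm_bounded h2.hasSum fun n => ?_).trans ?_
  · refine (norm_term' f s (n + N)).trans ?_
    have hn' : (N : ℝ) ≤ (n + N : ℕ) := by push_cast; linarith [Nat.cast_nonneg (α := ℝ) n]
    have hN' : (0 : ℝ) < N := by exact_mod_cast hN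
    rw [← hx, show -x = -(x - 2) + -2 by ring, Real.rpow_add (by linarith)]
    refine mul_le_mul_of_nonneg_right ?_ (by positivity)
    exact Real.rpow_le_rpow_of_nonpos hN' hn' (by linarith)
  · rw [tsum_mul_left]
    exact mul_le_mul_of_nonneg_left (tsum_tail_le N) (by positivity)

theorem norm_prod_sub_prod {ι : Type} (s : Finset ι) (a b : ι → ℂ) (M : ℝ) (hM : 1 ≤ M)
    (ha : ∀ l, ‖a l‖ ≤ M) (hb : ∀ l, ‖b l‖ ≤ M) :
    ‖∏ l ∈ s, a l - ∏ l ∈ s, b l‖ ≤ M ^ s.card * ∑ l ∈ s, ‖a l - b l‖ := by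
  classical
  induction s using Finset.induction_on with
  | empty => simp
  | insert i s hi ih =>
    rw [Finset.prod_insert hi, Finset.prod_insert hi, Finset.sum_insert hi, Finset.card_insert_of_notMem hi]
    have h1 : a i * ∏ l ∈ s, a l - b i * ∏ l ∈ s, b l =
        (a i - b i) * ∏ l ∈ s, a l + b i * (∏ l ∈ s, a l - ∏ l ∈ s, b l) := by ring
    rw [h1]
    have h2 : ‖∏ l ∈ s, a l‖ ≤ M ^ s.card := by
      rw [norm_prod]
      exact (Finset.prod_le_prod (fun l _ => norm_nonneg _) fun l _ => ha l).trans (by simp)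
    have h3 : (1 : ℝ) ≤ M ^ s.card := one_le_pow₀ hM
    calc _ ≤ ‖a i - b i‖ * ‖∏ l ∈ s, a l‖ + ‖b i‖ * ‖∏ l ∈ s, a l - ∏ l ∈ s, b l‖ := by
          refine (norm_add_le _ _).trans ?_
          rw [norm_mul, norm_mul]
      _ ≤ ‖a i - b i‖ * M ^ (s.card + 1) + M * (M ^ s.card * ∑ l ∈ s, ‖a l - b l‖) := by
          refine add_le_add (mul_le_mul_of_nonneg_left ?_ (norm_nonneg _)) ?_
          · rw [pow_succ]; nlinarith
          · exact mul_le_mul (hb i) ih (norm_nonneg _) (by linarith)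
      _ = _ := by ring

theorem not_mem_mains {ι : Type} [Fintype ι] (f : ι → Fac) {μ D T : ℝ} (hμ : 0 < μ)
    (hr : ∀ l, μ ≤ (f l).r) (j : ι → ℕ) (hj : j ∉ mains f μ D T) :
    D * Real.log T < ∑ l, (j l : ℝ) * (f l).r * Real.log 2 := by
  classical
  by_contra hcon
  push Not at hcon
  apply hj
  have hlog2 : 0 < Real.log 2 := Real.log_pos (by norm_num)
  unfold mains
  rw [Finset.mem_filter]
  refine ⟨?_, hcon⟩
  rw [Fintype.mem_piFinset]
  intro l
  rw [Finset.mem_range, Nat.lt_succ_iff]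
  apply Nat.le_floor
  rw [le_div_iff₀ (by positivity)]
  have h1 : (j l : ℝ) * (f l).r * Real.log 2 ≤ ∑ l, (j l : ℝ) * (f l).r * Real.log 2 :=
    Finset.single_le_sum (f := fun l => (j l : ℝ) * (f l).r * Real.log 2)
      (fun i _ => by have := (f i).r_pos; positivity) (Finset.mem_univ l)
  have h2 : (j l : ℝ) * (μ * Real.log 2) ≤ (j l : ℝ) * (f l).r * Real.log 2 := by
    rw [mul_assoc]
    exact mul_le_mul_of_nonneg_left (mul_le_mul_of_nonneg_right (hr l) hlog2.le) (by positivity)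
  linarith

theorem mem_mains {ι : Type} [Fintype ι] (f : ι → Fac) {μ D T : ℝ} (hμ : 0 < μ) (hD : 0 < D)
    (hT : 1 ≤ T) (j : ι → ℕ) (hj : j ∈ mains f μ D T) :
    (∀ l, (j l : ℝ) * (μ * Real.log 2) ≤ D * Real.log T) ∧
      ∑ l, (j l : ℝ) * (f l).r * Real.log 2 ≤ D * Real.log T := by
  classical
  have hlog2 : 0 < Real.log 2 := Real.log_pos (by norm_num)
  have hlogT : 0 ≤ Real.log T := Real.log_nonneg hT
  unfold mains at hj
  rw [Finset.mem_filter] at hj
  refine ⟨?_, hj.2⟩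
  intro l
  have h1 := (Fintype.mem_piFinset.1 hj.1) l
  rw [Finset.mem_range, Nat.lt_succ_iff] at h1
  have h2 : (j l : ℝ) ≤ D * Real.log T / (μ * Real.log 2) :=
    (Nat.cast_le.2 h1).trans (Nat.floor_le (by positivity))
  rwa [le_div_iff₀ (by positivity)] at h2

theorem tr : T_TR := by
  classical
  intro ι _ f μ d D hd hdD hμ hr
  set L : ℕ := Fintype.card ι with hL
  set S : ℝ := ∑' n : ℕ, (n : ℝ) ^ (-(2 : ℝ)) with hS
  have hS0 : 0 ≤ S := tsum_nonneg fun n => by positivity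
  set M : ℝ := 1 + S with hM
  have hM1 : 1 ≤ M := by linarith
  set c₁ : ℝ := (2 * d + 4 + D) / μ + 1 with hc₁
  have hc₁μ : c₁ * μ = 2 * d + 4 + D + μ := by
    rw [hc₁]; field_simp
  have hc₁0 : 0 < c₁ := by
    have : 0 < D := by linarith
    positivity
  have hlog2 : 0 < Real.log 2 := Real.log_pos (by norm_num)
  set β₁ : ℝ := 1 + 3 / μ + (2 * L * c₁ + 2) / (D - d) with hβ₁
  have hDd : 0 < D - d := by linarith
  have hp1 : 0 < 3 / μ := by positivity
  have hp2 : 0 ≤ (2 * L * c₁ + 2) / (D - d) := by positivity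
  refine ⟨β₁, by linarith, fun β hβ => ?_⟩
  have hβ1 : 1 ≤ β := by linarith
  have hβμ : 3 ≤ β * μ := by
    have : 3 / μ ≤ β := by linarith
    rwa [div_le_iff₀ hμ] at this
  have hβD : 2 * L * c₁ + 2 ≤ β * (D - d) := by
    have : (2 * L * c₁ + 2) / (D - d) ≤ β := by linarith
    rwa [div_le_iff₀ hDd] at this
  refine ⟨max 3 (4 ^ L + M ^ L * (L * M)), fun T hT t => ?_⟩
  have hT3 : 3 ≤ T := (le_max_left _ _).trans hT
  have hTpos : 0 < T := by linarith
  have hlogT : 0 < Real.log T := Real.log_pos (by linarith)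
  have hlog2T : Real.log 2 ≤ Real.log T := Real.log_le_log (by norm_num) (by linarith)
  set s : ℂ := 1 / 2 + β + t * I with hs
  have hsre : s.re - 1 / 2 = β := by rw [hs, re_line]; ring
  have hsre' : 1 / 2 ≤ s.re := by linarith
  -- the truncation
  set J : ℕ := ⌈c₁ * Real.log T / Real.log 2⌉₊ with hJ
  have hJ1 : c₁ * Real.log T ≤ J * Real.log 2 := by
    have := Nat.le_ceil (c₁ * Real.log T / Real.log 2)
    rwa [div_le_iff₀ hlog2] at this
  have hJ2 : J * Real.log 2 ≤ c₁ * Real.log T + Real.log 2 := by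
    have := (Nat.ceil_lt_add_one (show 0 ≤ c₁ * Real.log T / Real.log 2 by positivity)).le
    have h2 := mul_le_mul_of_nonneg_right this hlog2.le
    have h3 : (c₁ * Real.log T / Real.log 2 + 1) * Real.log 2 = c₁ * Real.log T + Real.log 2 := by
      field_simp
    rw [h3] at h2
    exact h2
  set Sl : ι → ℂ := fun l => ∑ j ∈ Finset.range J, (f l).B j s with hSl
  have hprod : ∏ l, Sl l = ∑ j ∈ Fintype.piFinset (fun _ : ι => Finset.range J), Pj f j s := by
    rw [hSl, Finset.prod_univ_sum]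
    rfl
  have hx2 : ∀ l, 3 / 2 ≤ (f l).r * β - 1 / 2 * ((f l).r * β) ∧ μ * β ≤ (f l).r * β := by
    intro l
    have : μ * β ≤ (f l).r * β := mul_le_mul_of_nonneg_right (hr l) (by linarith)
    constructor
    · nlinarith
    · exact this
  have hx : ∀ l, 2 ≤ 1 / 2 + (f l).r * (s.re - 1 / 2) := by
    intro l
    rw [hsre]
    have := hx2 l
    linarith [this.1, this.2]
  -- norms
  have hDn : ∀ l, ‖(f l).D s - Sl l‖ ≤ S * Real.exp (-(d * β + 2) * Real.log T) := by
    intro l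
    have h1 := norm_tail_le (f l) s (2 ^ J) (Nat.one_le_two_pow) (hx l)
    rw [← sum_B, ← hS] at h1
    refine h1.trans ?_
    rw [mul_comm]
    refine mul_le_mul_of_nonneg_left ?_ hS0
    push_cast
    rw [← Real.rpow_natCast, ← Real.rpow_mul (by norm_num), Real.rpow_def_of_pos (by norm_num)]
    refine Real.exp_le_exp.2 ?_
    rw [hsre]
    have h2 := (hx2 l).1
    have h3 := (hx2 l).2
    have h4 : (d * β + 2) ≤ c₁ * (1 / 2 + (f l).r * β - 2) := by
      have h5 : μ * β / 2 ≤ 1 / 2 + (f l).r * β - 2 := by linarith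
      have h6 : c₁ * (μ * β / 2) ≤ c₁ * (1 / 2 + (f l).r * β - 2) :=
        mul_le_mul_of_nonneg_left h5 hc₁0.le
      have h7 : c₁ * (μ * β / 2) = (2 * d + 4 + D + μ) * β / 2 := by
        rw [← hc₁μ]; ring
      rw [h7] at h6
      refine le_trans ?_ h6
      nlinarith
    have h5 : 0 ≤ 1 / 2 + (f l).r * β - 2 := by
      have := hx l
      rw [hsre] at this
      linarith
    have h6 : c₁ * Real.log T * (1 / 2 + (f l).r * β - 2) ≤
        J * Real.log 2 * (1 / 2 + (f l).r * β - 2) := mul_le_mul_of_nonneg_right hJ1 h5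
    have h7 : (d * β + 2) * Real.log T ≤ c₁ * (1 / 2 + (f l).r * β - 2) * Real.log T :=
      mul_le_mul_of_nonneg_right h4 hlogT.le
    linarith
  have hexp1 : Real.exp (-(d * β + 2) * Real.log T) ≤ 1 := by
    rw [Real.exp_le_one_iff]
    have : 0 < d * β + 2 := by positivity
    nlinarith
  have hDM : ∀ l, ‖(f l).D s‖ ≤ S := by
    intro l
    have h1 := norm_tail_le (f l) s 1 le_rfl (hx l)
    simp only [Finset.range_one, Finset.sum_singleton, (f l).c_zero, zero_mul, sub_zero,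
      Nat.cast_one, Real.one_rpow, one_mul] at h1
    exact h1
  have hSM : ∀ l, ‖Sl l‖ ≤ S := by
    intro l
    simp only [hSl]
    rw [sum_B]
    refine (norm_sum_le _ _).trans ?_
    refine (Finset.sum_le_sum fun n _ => (norm_term' (f l) s n).trans (?_ :
      _ ≤ (n : ℝ) ^ (-(2 : ℝ)))).trans ?_
    · rcases Nat.eq_zero_or_pos n with rfl | hn
      · have := hx l
        rw [Nat.cast_zero, Real.zero_rpow (by linarith), Real.zero_rpow (by norm_num)]
      · exact Real.rpow_le_rpow_of_exponent_le (by exact_mod_cast hn) (by linarith [hx l])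
    · exact (Real.summable_nat_rpow.2 (show (-2 : ℝ) < -1 by norm_num)).sum_le_tsum _
        fun n _ => by positivity
  have hA : ‖Pr f s - ∏ l, Sl l‖ ≤ M ^ L * (L * M) * Real.exp (-(d * β + 2) * Real.log T) := by
    unfold Pr
    refine (norm_prod_sub_prod Finset.univ _ _ M hM1 (fun l => (hDM l).trans (by linarith))
      (fun l => (hSM l).trans (by linarith))).trans ?_
    rw [Finset.card_univ, ← hL, mul_assoc]
    refine mul_le_mul_of_nonneg_left ?_ (by positivity)
    refine (Finset.sum_le_card_nsmul _ _ _ fun l _ => hDn l).trans ?_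
    rw [Finset.card_univ, ← hL, nsmul_eq_mul, mul_assoc]
    refine mul_le_mul_of_nonneg_left ?_ (by positivity)
    exact mul_le_mul_of_nonneg_right (by linarith) (Real.exp_pos _).le
  -- mains are a subset
  have hsub : mains f μ D T ⊆ Fintype.piFinset (fun _ : ι => Finset.range J) := by
    intro j hj
    have h1 := (mem_mains f hμ (by linarith) (by linarith) j hj).1
    rw [Fintype.mem_piFinset]
    intro l
    rw [Finset.mem_range]
    have h2 : (j l : ℝ) * Real.log 2 < J * Real.log 2 := by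
      refine lt_of_lt_of_le ?_ hJ1
      have h3 := h1 l
      have h4 : (j l : ℝ) * Real.log 2 * μ ≤ D * Real.log T := by linarith
      have h5 : D * Real.log T < c₁ * μ * Real.log T := by
        rw [hc₁μ]
        exact mul_lt_mul_of_pos_right (by linarith) hlogT
      have h6 : (j l : ℝ) * Real.log 2 * μ < c₁ * Real.log T * μ := by linarith
      exact lt_of_mul_lt_mul_right h6 hμ.le
    exact_mod_cast lt_of_mul_lt_mul_right h2 hlog2.le
  have hB : ‖∑ j ∈ Fintype.piFinset (fun _ : ι => Finset.range J) \ mains f μ D T, Pj f j s‖ ≤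
      4 ^ L * Real.exp (-(d * β + 2) * Real.log T) := by
    have h1 : ∀ j ∈ Fintype.piFinset (fun _ : ι => Finset.range J) \ mains f μ D T,
        ‖Pj f j s‖ ≤ Real.exp (L * (J * Real.log 2) - β * (D * Real.log T)) := by
      intro j hj
      rw [Finset.mem_sdiff] at hj
      refine (norm_Pj_le f j s hsre').trans (Real.exp_le_exp.2 ?_)
      rw [hsre]
      have h2 := not_mem_mains f hμ hr j hj.2
      have h3 : ∑ l, (j l : ℝ) ≤ L * J := by
        refine (Finset.sum_le_card_nsmul _ _ (J : ℝ) fun l _ => ?_).trans ?_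
        · have := (Fintype.mem_piFinset.1 hj.1) l
          rw [Finset.mem_range] at this
          exact_mod_cast this.le
        · rw [Finset.card_univ, nsmul_eq_mul]
      have h4 : 0 ≤ ∑ l, (j l : ℝ) := Finset.sum_nonneg fun l _ => by positivity
      have h5 : β * (D * Real.log T) ≤ β * ∑ l, (j l : ℝ) * (f l).r * Real.log 2 :=
        mul_le_mul_of_nonneg_left h2.le (by linarith)
      have h6 : (∑ l, (j l : ℝ)) / 2 * Real.log 2 ≤ L * J * Real.log 2 :=
        mul_le_mul_of_nonneg_right (by linarith) hlog2.le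
      linarith
    refine (norm_sum_le _ _).trans ((Finset.sum_le_card_nsmul _ _ _ h1).trans ?_)
    rw [nsmul_eq_mul]
    have h2 : (((Fintype.piFinset (fun _ : ι => Finset.range J) \ mains f μ D T).card : ℕ) : ℝ) ≤
        Real.exp (L * (J * Real.log 2)) := by
      have h3 : (Fintype.piFinset (fun _ : ι => Finset.range J) \ mains f μ D T).card ≤ (2 ^ J) ^ L := by
        refine (Finset.card_le_card Finset.sdiff_subset).trans ?_
        rw [Fintype.card_piFinset]
        simp only [Finset.card_range, Finset.prod_const, Finset.card_univ]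
        exact Nat.pow_le_pow_left (Nat.lt_two_pow_self).le _
      have h4 : (((2 ^ J) ^ L : ℕ) : ℝ) = Real.exp (L * (J * Real.log 2)) := by
        push_cast
        rw [← pow_mul, ← Real.rpow_natCast, Real.rpow_def_of_pos (by norm_num)]
        congr 1
        push_cast
        ring
      rw [← h4]
      exact_mod_cast h3
    refine (mul_le_mul_of_nonneg_right h2 (Real.exp_pos _).le).trans ?_
    have h5 : (4 : ℝ) ^ L = Real.exp (2 * L * Real.log 2) := by
      rw [show (4 : ℝ) = 2 ^ 2 by norm_num, ← pow_mul, ← Real.rpow_natCast,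
        Real.rpow_def_of_pos (by norm_num)]
      congr 1
      push_cast
      ring
    rw [h5, ← Real.exp_add, ← Real.exp_add]
    refine Real.exp_le_exp.2 ?_
    have h6 : (L : ℝ) * (J * Real.log 2) ≤ L * (c₁ * Real.log T + Real.log 2) :=
      mul_le_mul_of_nonneg_left hJ2 (by positivity)
    have h7 : (2 * L * c₁ + 2) * Real.log T ≤ β * (D - d) * Real.log T :=
      mul_le_mul_of_nonneg_right hβD hlogT.le
    linarith
  have hfin : Pr f s - ∑ j ∈ mains f μ D T, Pj f j s =
      (Pr f s - ∏ l, Sl l) +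
        ∑ j ∈ Fintype.piFinset (fun _ : ι => Finset.range J) \ mains f μ D T, Pj f j s := by
    rw [hprod, ← Finset.sum_sdiff hsub]
    ring
  rw [hfin]
  refine (norm_add_le _ _).trans ((add_le_add hA hB).trans ?_)
  rw [← add_mul, Real.rpow_def_of_pos hTpos]
  have h8 : M ^ L * (L * M) + 4 ^ L ≤ Real.exp (Real.log T) := by
    rw [Real.exp_log hTpos]
    have := (le_max_right _ _).trans hT
    linarith
  refine (mul_le_mul_of_nonneg_right h8 (Real.exp_pos _).le).trans ?_
  rw [← Real.exp_add]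
  refine Real.exp_le_exp.2 (le_of_eq ?_)
  ring

end Pool.Agent.H11.DL
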