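import Pool.Agent.H11.DL.LE
import Pool.Agent.H11.DL.TR

/-!
# Dilated zeros: module EX, the local average as a sum over the main blocks
-/

set_option autoImplicit false

open Complex MeasureTheory Set Filter Topology

namespace Pool.Agent.H11.DL

open Pool.Agent.H25.DL

theorem differentiable_term (f : Fac) (n : ℕ) :
    Differentiable ℂ fun s : ℂ => f.c n * (n : ℂ) ^ (-(wl f.r f.τ s)) := by
  rcases Nat.eq_zero_or_pos n with rfl | hn
  · simp only [f.c_zero, zero_mul]
    exact differentiable_const _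
  · have hn' : (n : ℂ) ≠ 0 := by exact_mod_cast hn.ne'
    have h1 : Differentiable ℂ fun s : ℂ => -(wl f.r f.τ s) := by
      unfold wl
      fun_prop
    intro s
    exact ((h1 s).const_cpow (Or.inl hn')).const_mul _

theorem differentiable_B (f : Fac) (j : ℕ) : Differentiable ℂ (f.B j) := by
  have : f.B j = fun s => ∑ n ∈ Finset.Ico (2 ^ j) (2 ^ (j + 1)), f.c n * (n : ℂ) ^ (-(wl f.r f.τ s)) :=
    rfl
  rw [this]
  exact Differentiable.fun_sum fun n _ => differentiable_term f n

theorem differentiable_Pj {ι : Type} [Fintype ι] (f : ι → Fac) (j : ι → ℕ) :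
    Differentiable ℂ (Pj f j) := by
  have : Pj f j = fun s => ∏ l, (f l).B (j l) s := rfl
  rw [this]
  exact Differentiable.fun_finsetProd fun l _ => differentiable_B (f l) (j l)

theorem continuous_line (b : ℂ) (u : ℝ) : Continuous fun y : ℝ => b + (u + y : ℝ) * I := by
  fun_prop

theorem continuousOn_Y {Y : ℂ → ℂ} {d t₀ : ℝ} (hY : Phase Y d t₀) (b u R : ℝ) (h : t₀ ≤ u - R) :
    ContinuousOn (fun y : ℝ => Y (b + (u + y : ℝ) * I)) (Icc (-R) R) := by
  intro y hy
  have h1 : t₀ ≤ ((b : ℂ) + (u + y : ℝ) * I).im := by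
    simp
    linarith [hy.1]
  have h2 := (hY.diff _ h1).continuousAt
  exact (ContinuousAt.comp (f := fun y : ℝ => (b : ℂ) + (u + y : ℝ) * I) h2
    (continuous_line b u).continuousAt).continuousWithinAt

theorem card_mains_le {ι : Type} [Fintype ι] (f : ι → Fac) {μ D T : ℝ} (hμ : 0 < μ) (hD : 0 < D)
    (hT : 1 ≤ T) : ((mains f μ D T).card : ℝ) ≤
      Real.exp (Fintype.card ι * (D / μ) * Real.log T) := by
  classical
  have hlog2 : 0 < Real.log 2 := Real.log_pos (by norm_num)
  have hlogT : 0 ≤ Real.log T := Real.log_nonneg hT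
  set m := ⌊D * Real.log T / (μ * Real.log 2)⌋₊ with hm
  have hm1 : (m : ℝ) ≤ D * Real.log T / (μ * Real.log 2) := Nat.floor_le (by positivity)
  have h1 : (mains f μ D T).card ≤ (2 ^ m) ^ (Fintype.card ι) := by
    unfold mains
    refine (Finset.card_filter_le _ _).trans ?_
    rw [Fintype.card_piFinset]
    simp only [Finset.card_range, Finset.prod_const, Finset.card_univ]
    exact Nat.pow_le_pow_left (Nat.succ_le_of_lt Nat.lt_two_pow_self) _
  have h2 : (((2 ^ m) ^ (Fintype.card ι) : ℕ) : ℝ) = Real.exp (Fintype.card ι * (m * Real.log 2)) := by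
    push_cast
    rw [← pow_mul, ← Real.rpow_natCast, Real.rpow_def_of_pos (by norm_num)]
    congr 1
    push_cast
    ring
  calc ((mains f μ D T).card : ℝ) ≤ (((2 ^ m) ^ (Fintype.card ι) : ℕ) : ℝ) := by exact_mod_cast h1
    _ = _ := h2
    _ ≤ _ := by
      refine Real.exp_le_exp.2 ?_
      rw [mul_assoc]
      refine mul_le_mul_of_nonneg_left ?_ (by positivity)
      calc (m : ℝ) * Real.log 2 ≤ D * Real.log T / (μ * Real.log 2) * Real.log 2 :=
            mul_le_mul_of_nonneg_right hm1 hlog2.le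
        _ = D / μ * Real.log T := by field_simp

theorem ex (h : T_TR) : T_EX := by
  classical
  intro ι _ f Y d t₀ μ D hd hdD hμ hr hY
  obtain ⟨β₂, hβ₂, hTR⟩ := h ι f μ d D hd hdD hμ hr
  obtain ⟨β₃, hβ₃, hPr⟩ := norm_Pr_sub_one f
  refine ⟨max β₂ β₃, lt_max_of_lt_left hβ₂, fun β hβ => ?_⟩
  have hβ2 : β₂ ≤ β := (le_max_left _ _).trans hβ
  have hβ3 : β₃ ≤ β := (le_max_right _ _).trans hβ
  have hβpos : 0 < β := hβ₂.trans_le hβ2
  obtain ⟨hx, -⟩ := hPr β hβ3
  obtain ⟨T₁, hT₁⟩ := hTR β hβ2
  obtain ⟨C, hC, hgrow⟩ := hY.growth (1 / 2 + β)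
  have hD : 0 < D := by linarith
  have hlog2 : 0 < Real.log 2 := Real.log_pos (by norm_num)
  have hπ : 0 < Real.sqrt Real.pi := Real.sqrt_pos.2 Real.pi_pos
  set L : ℝ := (Fintype.card ι : ℝ) with hL
  have hL0 : 0 ≤ L := by positivity
  -- smallness
  have hlim1 : Tendsto (fun T : ℝ => C * Real.exp (d * β * Real.log 3) * Real.exp 1 * T⁻¹) atTop
      (𝓝 (C * Real.exp (d * β * Real.log 3) * Real.exp 1 * 0)) :=
    tendsto_inv_atTop_zero.const_mul _
  rw [mul_zero] at hlim1
  have hlim2 := (tend_aux (3 / 2 * L * (D / μ) + d * β) (d * β * Real.log 3 + 1) (1 / β ^ 2)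
    (by positivity)).const_mul (2 * C / Real.sqrt Real.pi)
  rw [mul_zero] at hlim2
  have hlog : Tendsto (fun T : ℝ => Real.log T / T) atTop (𝓝 0) := by
    have := Real.isLittleO_log_id_atTop.tendsto_div_nhds_zero
    simpa using this
  obtain ⟨T₀, hT₀⟩ := eventually_atTop.1 ((hlim1.eventually_le_const (show (0 : ℝ) < 1 / 16 by norm_num)).and
    ((hlim2.eventually_le_const (show (0 : ℝ) < 1 / 16 by norm_num)).and
    ((hlog.eventually_le_const (show (0 : ℝ) < 1 / 2 by norm_num)).and
      ((eventually_ge_atTop (max T₁ 3)).and (eventually_ge_atTop (2 * t₀))))))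
  refine ⟨T₀, fun T hT u hu => ?_⟩
  obtain ⟨s1, s2, s3, s4, s5⟩ := hT₀ T hT
  have hT1 : T₁ ≤ T := (le_max_left _ _).trans s4
  have hT3 : 3 ≤ T := (le_max_right _ _).trans s4
  have hTpos : 0 < T := by linarith
  have hlogT : 0 < Real.log T := Real.log_pos (by linarith)
  rw [div_le_iff₀ hTpos] at s3
  set R := Real.log T with hR
  have ht₀ : t₀ ≤ u - R := by linarith [hu.1]
  have ht1 : 1 ≤ t₀ := hY.one_le
  have hup : u + R ≤ 3 * T := by linarith [hu.2]
  -- bound for Y
  have hYb : ∀ σ t : ℝ, 1 / 2 ≤ σ → σ ≤ 1 / 2 + β → u - R ≤ t → t ≤ u + R →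
      ‖Y (σ + t * I)‖ ≤ C * Real.exp (d * β * Real.log 3 + d * β * Real.log T) := by
    intro σ t h1 h2 h3 h4
    refine (hgrow σ t h1 h2 (by linarith)).trans ?_
    refine mul_le_mul_of_nonneg_left ?_ hC.le
    have ht : 1 ≤ t := by linarith
    calc t ^ (d * (σ - 1 / 2)) ≤ t ^ (d * β) :=
          Real.rpow_le_rpow_of_exponent_le ht (mul_le_mul_of_nonneg_left (by linarith) hd.le)
      _ ≤ (3 * T) ^ (d * β) := Real.rpow_le_rpow (by linarith) (by linarith) (by positivity)
      _ = _ := by
          rw [Real.rpow_def_of_pos (by linarith), Real.log_mul (by norm_num) hTpos.ne']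
          congr 1
          ring
  -- the functions on the line
  set g : ℝ → ℂ := fun y => Y (1 / 2 + β + (u + y : ℝ) * I) * gs β (β + y * I) with hg
  set A : ℝ → ℂ := fun y => Pr f (1 / 2 + β + (u + y : ℝ) * I) with hA
  set P : (ι → ℕ) → ℝ → ℂ := fun j y => Pj f j (1 / 2 + β + (u + y : ℝ) * I) with hP
  have hgc : ContinuousOn g (Icc (-R) R) := by
    have h1 := continuousOn_Y hY (1 / 2 + β) u R ht₀
    have h2 : ContinuousOn (fun y : ℝ => gs β (β + y * I)) (Icc (-R) R) :=
      (continuous_gs β (β : ℂ)).continuousOn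
    have h3 := h1.mul h2
    refine h3.congr fun y _ => ?_
    simp only [hg]
    push_cast
    rfl
  have hAc : Continuous A := by
    have h3 := continuous_Pr f (1 / 2 + β) (fun l => by
      have := hx l
      rw [add_sub_cancel_left]; linarith)
    have h4 : A = (fun t : ℝ => Pr f (((1 / 2 + β : ℝ) : ℂ) + t * I)) ∘ fun y => u + y := by
      funext y
      simp only [hA, Function.comp]
      congr 1
      push_cast; ring
    rw [h4]
    exact h3.comp (by fun_prop)
  have hPc : ∀ j, Continuous (P j) := by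
    intro j
    have h3 := (differentiable_Pj f j).continuous
    exact h3.comp (continuous_line (1 / 2 + β) u)
  have hRR : -R ≤ R := by linarith
  have hAi : IntervalIntegrable (fun y => A y * g y) volume (-R) R :=
    (hAc.continuousOn.mul hgc).intervalIntegrable_of_Icc hRR
  have hPi : ∀ j, IntervalIntegrable (fun y => P j y * g y) volume (-R) R := fun j =>
    ((hPc j).continuousOn.mul hgc).intervalIntegrable_of_Icc hRR
  have hKK : KK f Y β R u = ∫ y in (-R)..R, A y * g y := by
    unfold KK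
    refine intervalIntegral.integral_congr fun y _ => ?_
    simp only [hA, hg, mul_assoc]
  -- first part
  have hsub : (∫ y in (-R)..R, A y * g y) - ∑ j ∈ mains f μ D T, ∫ y in (-R)..R, P j y * g y =
      ∫ y in (-R)..R, (A y - ∑ j ∈ mains f μ D T, P j y) * g y := by
    have hSi : IntervalIntegrable (fun y => ∑ j ∈ mains f μ D T, P j y * g y) volume (-R) R :=
      (continuousOn_finsetSum _ fun j _ => (hPc j).continuousOn.mul hgc).intervalIntegrable_of_Icc hRR
    have := intervalIntegral.integral_sub (f := fun y => A y * g y)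
      (g := fun y => ∑ j ∈ mains f μ D T, P j y * g y) hAi hSi
    rw [← intervalIntegral.integral_finsetSum fun j _ => hPi j, ← this]
    refine intervalIntegral.integral_congr fun y _ => ?_
    show A y * g y - ∑ j ∈ mains f μ D T, P j y * g y = _
    rw [← Finset.sum_mul]
    ring
  have hpart1 : ‖∫ y in (-R)..R, (A y - ∑ j ∈ mains f μ D T, P j y) * g y‖ ≤ 1 / 16 := by
    have h1 : ‖∫ y in (-R)..R, (A y - ∑ j ∈ mains f μ D T, P j y) * g y‖ ≤
        ∫ y in (-R)..R, (T ^ (-(d * β) - 1) *
          (C * Real.exp (d * β * Real.log 3 + d * β * Real.log T))) * ‖gs β (β + y * I)‖ := by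
      refine intervalIntegral.norm_integral_le_of_norm_le hRR ?_
        ((continuous_const.mul (continuous_gs β (β : ℂ)).norm).intervalIntegrable _ _)
      refine Eventually.of_forall fun y hy => ?_
      simp only [hg]
      rw [norm_mul, norm_mul, mul_assoc]
      refine mul_le_mul (hT₁ T hT1 (u + y)) ?_ (by positivity) (by positivity)
      refine mul_le_mul_of_nonneg_right ?_ (norm_nonneg _)
      have := hYb (1 / 2 + β) (u + y) (by linarith) le_rfl (by linarith [hy.1]) (by linarith [hy.2])
      have e : (1 / 2 + β + (u + y : ℝ) * I : ℂ) = ((1 / 2 + β : ℝ) : ℂ) + ((u + y : ℝ) : ℂ) * I := by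
        push_cast; ring
      rw [e]
      exact this
    rw [intervalIntegral.integral_const_mul] at h1
    have h2 := intervalIntegral_norm_gs_le hβpos β R hlogT.le
    have h5 : Real.exp (β ^ 2 / β ^ 2) = Real.exp 1 := by
      congr 1
      field_simp
    rw [h5] at h2
    refine (h1.trans (mul_le_mul_of_nonneg_left h2 (by positivity))).trans ?_
    refine le_trans (le_of_eq ?_) s1
    rw [Real.exp_add, Real.rpow_def_of_pos hTpos,
      show Real.log T * (-(d * β) - 1) = -(d * β * Real.log T) + -Real.log T by ring, Real.exp_add,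
      Real.exp_neg (Real.log T), Real.exp_log hTpos]
    have : Real.exp (-(d * β * Real.log T)) * Real.exp (d * β * Real.log T) = 1 := by
      rw [← Real.exp_add]; simp
    linear_combination (T⁻¹ * C * Real.exp (d * β * Real.log 3) * Real.exp 1) * this
  -- second part
  have hpart2 : ∀ j ∈ mains f μ D T, ‖(∫ y in (-R)..R, P j y * g y) - KJ f Y β R j u‖ ≤
      2 * β * (Real.exp (L * (D / μ) / 2 * Real.log T) *
        (C * Real.exp (d * β * Real.log 3 + d * β * Real.log T)) *
        (Real.exp (1 - 1 / β ^ 2 * R ^ 2) / (β * Real.sqrt Real.pi))) := by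
    intro j hj
    set F : ℂ → ℂ := fun s => Pj f j s * Y s * gs β (s - 1 / 2 - u * I) with hF
    have hside : ∀ (x t : ℝ), 1 / 2 ≤ x → x ≤ 1 / 2 + β → |t| = R →
        ‖F (x + (u + t : ℝ) * I)‖ ≤ Real.exp (L * (D / μ) / 2 * Real.log T) *
        (C * Real.exp (d * β * Real.log 3 + d * β * Real.log T)) *
        (Real.exp (1 - 1 / β ^ 2 * R ^ 2) / (β * Real.sqrt Real.pi)) := by
      intro x t hx1 hx2 ht
      have ht' : -R ≤ t ∧ t ≤ R := by
        rw [← abs_le]; exact ht.le
      simp only [hF]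
      rw [norm_mul, norm_mul]
      refine mul_le_mul (mul_le_mul ?_ ?_ (norm_nonneg _) (Real.exp_pos _).le) ?_ (norm_nonneg _)
        (by positivity)
      · refine (norm_Pj_le f j _ (by simpa using hx1)).trans (Real.exp_le_exp.2 ?_)
        have h1 := (mem_mains f hμ hD (by linarith) j hj).1
        have h2 : ∑ l, (j l : ℝ) * (μ * Real.log 2) ≤ L * (D * Real.log T) := by
          refine (Finset.sum_le_card_nsmul _ _ _ fun l _ => h1 l).trans ?_
          rw [Finset.card_univ, nsmul_eq_mul]
        rw [← Finset.sum_mul] at h2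
        have h3 : (∑ l, (j l : ℝ)) * Real.log 2 ≤ L * (D / μ) * Real.log T := by
          have : ((∑ l, (j l : ℝ)) * Real.log 2) * μ ≤ (L * (D / μ) * Real.log T) * μ := by
            rw [show (L * (D / μ) * Real.log T) * μ = L * (D * Real.log T) by field_simp]
            linarith
          exact le_of_mul_le_mul_right this hμ
        have h4 : 0 ≤ ∑ l, (j l : ℝ) * (f l).r * Real.log 2 := Finset.sum_nonneg fun l _ => by
          have := (f l).r_pos
          positivity
        have h5 : 0 ≤ (((x : ℂ) + (u + t : ℝ) * I).re - 1 / 2) := by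
          simp
          linarith
        have h6 := mul_nonneg h5 h4
        linarith
      · exact hYb x (u + t) hx1 hx2 (by linarith [ht'.1]) (by linarith [ht'.2])
      · have h1 : ((x : ℂ) + (u + t : ℝ) * I - 1 / 2 - u * I) = ((x - 1 / 2 : ℝ) : ℂ) + t * I := by
          push_cast; ring
        rw [h1, norm_gs hβpos]
        refine div_le_div_of_nonneg_right (Real.exp_le_exp.2 ?_) (by positivity)
        have h2 : t ^ 2 = R ^ 2 := by rw [← sq_abs, ht]
        rw [h2, sub_div]
        have h3 : (x - 1 / 2) ^ 2 / β ^ 2 ≤ 1 := by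
          rw [div_le_one (by positivity)]
          exact pow_le_pow_left₀ (by linarith) (by linarith) 2
        have h4 : R ^ 2 / β ^ 2 = 1 / β ^ 2 * R ^ 2 := by ring
        rw [h4]
        linarith
    have hdiff : ∀ s : ℂ, 1 / 2 ≤ s.re → s.re ≤ 1 / 2 + β → |s.im - u| ≤ R → DifferentiableAt ℂ F s := by
      intro s _ _ h3
      have h4 := abs_le.1 h3
      have h5 : DifferentiableAt ℂ Y s := hY.diff s (by linarith [h4.1])
      have h6 : DifferentiableAt ℂ (fun s : ℂ => gs β (s - 1 / 2 - u * I)) s := by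
        have := differentiable_gs β (s - 1 / 2 - u * I)
        exact this.comp (f := fun s : ℂ => s - 1 / 2 - u * I) s (by fun_prop)
      exact ((differentiable_Pj f j s).mul h5).mul h6
    have key := shift_rect F (a := 1 / 2) (b := 1 / 2 + β) (u := u) (R := R) (by linarith) hlogT.le
      hdiff (fun x hx1 hx2 => by
        have := hside x (-R) hx1 hx2 (by rw [abs_neg, abs_of_pos hlogT])
        rwa [← sub_eq_add_neg] at this)
      (fun x hx1 hx2 => hside x R hx1 hx2 (abs_of_pos hlogT))
    have e1 : ∫ y in (-R)..R, P j y * g y =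
        ∫ y in (-R)..R, F (((1 / 2 + β : ℝ) : ℂ) + (u + y : ℝ) * I) := by
      refine intervalIntegral.integral_congr fun y _ => ?_
      simp only [hP, hg, hF]
      rw [show (((1 / 2 + β : ℝ) : ℂ) + (u + y : ℝ) * I) = 1 / 2 + β + (u + y : ℝ) * I by push_cast; ring,
        show (1 / 2 + β + (u + y : ℝ) * I - 1 / 2 - u * I : ℂ) = β + y * I by push_cast; ring]
      ring
    have e2 : KJ f Y β R j u = ∫ y in (-R)..R, F (((1 / 2 : ℝ) : ℂ) + (u + y : ℝ) * I) := by
      unfold KJ
      refine intervalIntegral.integral_congr fun y _ => ?_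
      simp only [hF]
      rw [show (((1 / 2 : ℝ) : ℂ) + (u + y : ℝ) * I) = 1 / 2 + (u + y : ℝ) * I by push_cast; ring,
        show (1 / 2 + (u + y : ℝ) * I - 1 / 2 - u * I : ℂ) = y * I by push_cast; ring]
    rw [e1, e2]
    refine key.trans (le_of_eq ?_)
    ring
  have hcard := card_mains_le f hμ hD (show 1 ≤ T by linarith)
  rw [← hL] at hcard
  rw [hKK]
  have hfin : (∫ y in (-R)..R, A y * g y) - ∑ j ∈ mains f μ D T, KJ f Y β R j u =
      ((∫ y in (-R)..R, A y * g y) - ∑ j ∈ mains f μ D T, ∫ y in (-R)..R, P j y * g y) +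
        ∑ j ∈ mains f μ D T, ((∫ y in (-R)..R, P j y * g y) - KJ f Y β R j u) := by
    rw [Finset.sum_sub_distrib]
    ring
  rw [hfin, hsub]
  have hsum2 : ‖∑ j ∈ mains f μ D T, ((∫ y in (-R)..R, P j y * g y) - KJ f Y β R j u)‖ ≤ 1 / 16 := by
    refine (norm_sum_le _ _).trans ((Finset.sum_le_card_nsmul _ _ _ hpart2).trans ?_)
    rw [nsmul_eq_mul]
    refine (mul_le_mul_of_nonneg_right hcard (by positivity)).trans (le_trans (le_of_eq ?_) s2)
    have h1 : (3 / 2 * L * (D / μ) + d * β) * Real.log T + (d * β * Real.log 3 + 1) -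
        1 / β ^ 2 * Real.log T ^ 2 = L * (D / μ) * Real.log T + (L * (D / μ) / 2 * Real.log T +
          ((d * β * Real.log 3 + d * β * Real.log T) + (1 - 1 / β ^ 2 * R ^ 2))) := by
      rw [← hR]
      ring
    rw [h1, Real.exp_add (L * (D / μ) * Real.log T), Real.exp_add (L * (D / μ) / 2 * Real.log T),
      Real.exp_add (d * β * Real.log 3 + d * β * Real.log T)]
    field_simp
  exact (norm_add_le _ _).trans (by linarith)

end Pool.Agent.H11.DL
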