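import Pool.Agent.H11.DL.Base

/-!
# Dilated zeros: module LE, the left side
-/

set_option autoImplicit false

open Complex MeasureTheory Set Filter Topology

namespace Pool.Agent.H11.DL

open Pool.Agent.H25.DL

/-- the tail of the series after the first term -/
theorem norm_D_sub_one (f : Fac) (s : ℂ) (h : 2 ≤ 1 / 2 + f.r * (s.re - 1 / 2)) :
    ‖f.D s - 1‖ ≤ (2 : ℝ) ^ (-(1 / 2 + f.r * (s.re - 1 / 2) - 2)) * ∑' n : ℕ, (n : ℝ) ^ (-(2 : ℝ)) := by
  set x := 1 / 2 + f.r * (s.re - 1 / 2) with hx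
  have hsum := summable_term f s (by linarith)
  have h1 : f.D s - 1 = ∑' n : ℕ, (if n = 1 then 0 else f.c n * (n : ℂ) ^ (-(wl f.r f.τ s))) := by
    rw [Fac.D, hsum.tsum_eq_add_tsum_ite 1]
    simp [f.c_one]
  have h2 : Summable fun n : ℕ => (2 : ℝ) ^ (-(x - 2)) * (n : ℝ) ^ (-(2 : ℝ)) :=
    (Real.summable_nat_rpow.2 (by norm_num)).mul_left _
  rw [h1, ← tsum_mul_left]
  refine tsum_of_norm_bounded h2.hasSum fun n => ?_
  rcases Nat.lt_or_ge n 2 with hn | hn
  · interval_cases n
    · simp [f.c_zero]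
    · simp only [if_true, norm_zero]
      positivity
  · rw [if_neg (by omega)]
    refine (norm_term' f s n).trans ?_
    have hn' : (2 : ℝ) ≤ n := by exact_mod_cast hn
    rw [← hx, show -x = -(x - 2) + -2 by ring, Real.rpow_add (by linarith)]
    refine mul_le_mul_of_nonneg_right ?_ (by positivity)
    exact Real.rpow_le_rpow_of_nonpos (by norm_num) hn' (by linarith)

theorem norm_Pr_sub_one {ι : Type} [Fintype ι] (f : ι → Fac) : ∃ β₁ : ℝ, 0 < β₁ ∧ ∀ β : ℝ, β₁ ≤ β →
    (∀ l, 2 ≤ 1 / 2 + (f l).r * β) ∧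
    ∀ s : ℂ, s.re = 1 / 2 + β → ‖Pr f s - 1‖ ≤ 1 / 16 := by
  set S : ℝ := ∑' n : ℕ, (n : ℝ) ^ (-(2 : ℝ)) with hS
  have hS0 : 0 ≤ S := tsum_nonneg fun n => by positivity
  have hlim : Tendsto (fun β : ℝ => ∑ l, (2 : ℝ) ^ (-(1 / 2 + (f l).r * β - 2)) * S) atTop
      (𝓝 (∑ _l : ι, 0 * S)) := by
    refine tendsto_finsetSum _ fun l _ => ?_
    refine Tendsto.mul_const _ ?_
    have h1 : Tendsto (fun β : ℝ => 1 / 2 + (f l).r * β - 2) atTop atTop := by
      have := (tendsto_id.const_mul_atTop (f l).r_pos : Tendsto (fun β : ℝ => (f l).r * β) atTop atTop)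
      have h2 := tendsto_atTop_add_const_right atTop (1 / 2 - 2 : ℝ) this
      refine h2.congr fun β => by ring
    have h2 := (tendsto_rpow_atTop_of_base_lt_one (1 / 2 : ℝ) (by norm_num) (by norm_num)).comp h1
    refine h2.congr fun β => ?_
    simp only [Function.comp]
    rw [Real.rpow_neg (by norm_num), one_div, Real.inv_rpow (by norm_num)]
  have h0 : ∑ _l : ι, 0 * S = 0 := by simp
  rw [h0] at hlim
  have hr : ∀ l, ∀ᶠ β : ℝ in atTop, 2 ≤ 1 / 2 + (f l).r * β := by
    intro l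
    have := (tendsto_id.const_mul_atTop (f l).r_pos : Tendsto (fun β : ℝ => (f l).r * β) atTop atTop)
    filter_upwards [this.eventually_ge_atTop (2 : ℝ)] with β hβ
    linarith
  have hlog : 0 < Real.log (17 / 16) := Real.log_pos (by norm_num)
  obtain ⟨β₁, hβ₁⟩ := eventually_atTop.1 ((hlim.eventually_lt_const hlog).and
    ((eventually_all.2 hr).and (eventually_ge_atTop (1 : ℝ))))
  refine ⟨max β₁ 1, by positivity, fun β hβ => ?_⟩
  obtain ⟨h1, h2, h3⟩ := hβ₁ β ((le_max_left _ _).trans hβ)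
  refine ⟨h2, fun s hs => ?_⟩
  have h4 : s.re - 1 / 2 = β := by rw [hs]; ring
  have h5 := Finset.norm_prod_one_add_sub_one_le (Finset.univ : Finset ι)
    (fun l : ι => (f l).D s - 1)
  simp only [add_sub_cancel] at h5
  refine h5.trans ?_
  have h6 : ∑ l, ‖(f l).D s - 1‖ ≤ Real.log (17 / 16) := by
    refine (Finset.sum_le_sum fun l _ => ?_).trans h1.le
    have := norm_D_sub_one (f l) s (by rw [h4]; exact h2 l)
    rwa [h4] at this
  have h7 : Real.exp (∑ l, ‖(f l).D s - 1‖) ≤ 17 / 16 := by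
    rw [← Real.exp_log (show (0 : ℝ) < 17 / 16 by norm_num)]
    exact Real.exp_le_exp.2 h6
  linarith

theorem continuous_Pr {ι : Type} [Fintype ι] (f : ι → Fac) (b : ℝ)
    (h : ∀ l, 1 < 1 / 2 + (f l).r * (b - 1 / 2)) : Continuous fun t : ℝ => Pr f (b + t * I) := by
  unfold Pr
  exact continuous_finsetProd _ fun l _ => continuous_D (f l) b (h l)

theorem le : T_LE := by
  intro ι _ f
  obtain ⟨β₁, hβ₁, hP⟩ := norm_Pr_sub_one fun l => (f l).bar
  refine ⟨β₁, hβ₁, fun β hβ => ?_⟩
  obtain ⟨hx, hP'⟩ := hP β hβ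
  have hβpos : 0 < β := hβ₁.trans_le hβ
  have hint := integrable_gs hβpos (-β)
  have hlim := intervalIntegral_tendsto_integral (l := (atTop : Filter ℝ)) hint
    tendsto_neg_atTop_atBot tendsto_id
  rw [integral_gs hβpos] at hlim
  have hev : ∀ᶠ R : ℝ in atTop, ‖(∫ y in (-R)..R, gs β ((-β : ℝ) + y * I)) - 1‖ < 1 / 4 := by
    have := (tendsto_iff_norm_sub_tendsto_zero.1 hlim).eventually_lt_const
      (show (0 : ℝ) < 1 / 4 by norm_num)
    exact this
  obtain ⟨R₀, hR₀⟩ := eventually_atTop.1 (hev.and (eventually_ge_atTop (0 : ℝ)))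
  refine ⟨R₀, fun R hR u => ?_⟩
  obtain ⟨h1, h2⟩ := hR₀ R hR
  set g : ℝ → ℂ := fun y => gs β ((-β : ℝ) + y * I) with hg
  set P : ℝ → ℂ := fun y => Pr (fun l => (f l).bar) (1 / 2 + β - (u + y : ℝ) * I) with hPdef
  have hgc : Continuous g := continuous_gs β _
  have hPc : Continuous P := by
    have h3 := continuous_Pr (fun l => (f l).bar) (1 / 2 + β) (fun l => by
      have := hx l
      rw [add_sub_cancel_left]; linarith)
    have h4 : P = (fun t : ℝ => Pr (fun l => (f l).bar) (((1 / 2 + β : ℝ) : ℂ) + t * I)) ∘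
        fun y => -(u + y) := by
      funext y
      simp only [hPdef, Function.comp]
      congr 1
      push_cast; ring
    rw [h4]
    exact h3.comp (by fun_prop)
  have e1 : LL f β R u = ∫ y in (-R)..R, P y * g y := by
    unfold LL
    refine intervalIntegral.integral_congr fun y _ => ?_
    simp only [hPdef, hg]
    push_cast
    rfl
  have e2 : LL f β R u - 1 = (∫ y in (-R)..R, (P y - 1) * g y) + ((∫ y in (-R)..R, g y) - 1) := by
    rw [e1]
    have h3 : ∫ y in (-R)..R, P y * g y =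
        (∫ y in (-R)..R, (P y - 1) * g y) + ∫ y in (-R)..R, g y := by
      have c1 : Continuous fun y : ℝ => (P y - 1) * g y := (hPc.sub continuous_const).mul hgc
      have := intervalIntegral.integral_add (f := fun y : ℝ => (P y - 1) * g y) (g := g)
        (c1.intervalIntegrable (μ := volume) (-R) R) (hgc.intervalIntegrable (-R) R)
      rw [← this]
      refine intervalIntegral.integral_congr fun y _ => ?_
      show P y * g y = (P y - 1) * g y + g y
      ring
    rw [h3]
    ring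
  have h3 : ‖∫ y in (-R)..R, (P y - 1) * g y‖ ≤ ∫ y in (-R)..R, 1 / 16 * ‖g y‖ := by
    refine intervalIntegral.norm_integral_le_of_norm_le (by linarith) ?_
      ((continuous_const.mul hgc.norm).intervalIntegrable _ _)
    refine Eventually.of_forall fun y _ => ?_
    rw [norm_mul]
    refine mul_le_mul_of_nonneg_right ?_ (norm_nonneg _)
    refine hP' _ ?_
    simp
  rw [intervalIntegral.integral_const_mul] at h3
  have h4 := intervalIntegral_norm_gs_le hβpos (-β) R h2
  have h5 : Real.exp ((-β) ^ 2 / β ^ 2) = Real.exp 1 := by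
    congr 1
    field_simp
  rw [h5] at h4
  have h6 := Real.exp_one_lt_d9
  rw [e2]
  refine (norm_add_le _ _).trans ?_
  have h7 : (∫ y in (-R)..R, ‖g y‖) ≤ Real.exp 1 := h4
  linarith

end Pool.Agent.H11.DL
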